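import Pool.Agent.Q66.RX.Stm

/-! JOB RX-PTI of project RX (helper66), MP_c93b6d_al. -/

set_option autoImplicit false

namespace Pool.Agent.Q160.RX

open Pool.Agent.Q66.RX Topology Filter Set
open scoped Pointwise

/-- Neighbourhoods of one of the dual, first direction. -/
theorem nhd_basis {G : Type} [CommGroup G] [TopologicalSpace G] [IsTopologicalGroup G]
    {N : Set (PontryaginDual G)} (hN : N ∈ 𝓝 (1 : PontryaginDual G)) :
    ∃ C : Set G, IsCompact C ∧ ∃ V ∈ 𝓝 (1 : Circle), ∀ χ : PontryaginDual G,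
      (∀ g ∈ C, χ g ∈ V) → χ ∈ N := by
  have h1 := (ContinuousMonoidHom.isInducing_toContinuousMap G Circle).nhds_eq_comap 1
  have h2 : N ∈ comap (ContinuousMonoidHom.toContinuousMap : (G →ₜ* Circle) → C(G, Circle))
      (𝓝 ((1 : G →ₜ* Circle).toContinuousMap)) := by
    rw [← h1]
    exact hN
  obtain ⟨S, hS, hSN⟩ := mem_comap.1 h2
  have h3 : (1 : G →ₜ* Circle).toContinuousMap = ContinuousMap.const G (1 : Circle) := by
    ext g
    rfl
  rw [h3] at hS
  obtain ⟨⟨C, V⟩, ⟨hC, hV⟩, hCV⟩ :=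
    ((𝓝 (1 : Circle)).basis_sets.nhds_continuousMapConst (X := G)).mem_iff.1 hS
  exact ⟨C, hC, V, hV, fun χ hχ => hSN (hCV (fun g hg => hχ g hg))⟩

/-- Neighbourhoods of one of the dual, second direction. -/
theorem nhd_mk {G : Type} [CommGroup G] [TopologicalSpace G] [IsTopologicalGroup G]
    {D : Set G} (hD : IsCompact D) {V : Set Circle} (hV : V ∈ 𝓝 (1 : Circle)) :
    {χ : PontryaginDual G | ∀ g ∈ D, χ g ∈ V} ∈ 𝓝 (1 : PontryaginDual G) := by
  have h1 := (ContinuousMonoidHom.isInducing_toContinuousMap G Circle).nhds_eq_comap 1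
  have h3 : (1 : G →ₜ* Circle).toContinuousMap = ContinuousMap.const G (1 : Circle) := by
    ext g
    rfl
  have h2 : {f : C(G, Circle) | MapsTo f D V} ∈ 𝓝 (ContinuousMap.const G (1 : Circle)) :=
    ((𝓝 (1 : Circle)).basis_sets.nhds_continuousMapConst (X := G)).mem_of_mem
      (i := (D, V)) ⟨hD, hV⟩
  have h4 : {χ : G →ₜ* Circle | ∀ g ∈ D, χ g ∈ V} ∈
      comap (ContinuousMonoidHom.toContinuousMap : (G →ₜ* Circle) → C(G, Circle))
      (𝓝 ((1 : G →ₜ* Circle).toContinuousMap)) := by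
    rw [h3]
    exact mem_comap.2 ⟨_, h2, fun χ hχ g hg => hχ hg⟩
  rw [← h1] at h4
  exact h4

theorem t_PTI (_hL : S_LC) : S_PTI := by
  intro I X G _ _ _ _ _ _ _ F hB hR Φ x hx
  have hre : {z : Circle | 0 < rr z} ∈ 𝓝 (1 : Circle) := by
    have hc : Continuous (fun z : Circle => rr z) :=
      Complex.continuous_re.comp continuous_subtype_val
    apply (isOpen_lt continuous_const hc).mem_nhds
    change (0 : ℝ) < ((1 : Circle) : ℂ).re
    simp
  have hΦ : {χ : PontryaginDual G | 0 < rr (Φ χ)} ∈ 𝓝 (1 : PontryaginDual G) := by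
    have hc : ContinuousAt (fun χ : PontryaginDual G => Φ χ) 1 :=
      (map_continuous Φ).continuousAt
    have h1 : {z : Circle | 0 < rr z} ∈ 𝓝 (Φ 1) := by
      rw [map_one]
      exact hre
    exact hc.preimage_mem_nhds h1
  obtain ⟨C, hC, V, hV, hCV⟩ := nhd_basis hΦ
  obtain ⟨K, hK, hK1⟩ := exists_compact_mem_nhds (1 : X)
  have hW : {g : G | ∀ i, F.c g i ∈ K} ∈ 𝓝 (1 : G) :=
    (F.nhd _).2 ⟨K, hK1, fun g hg => hg⟩
  obtain ⟨t, htC, htc⟩ := hC.elim_nhds_subcover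
    (fun y => {g : G | y⁻¹ * g ∈ {g : G | ∀ i, F.c g i ∈ K}}) (by
      intro y _
      have hc : ContinuousAt (fun g : G => y⁻¹ * g) y := (continuous_const_mul y⁻¹).continuousAt
      have h1 : {g : G | ∀ i, F.c g i ∈ K} ∈ 𝓝 (y⁻¹ * y) := by
        rw [inv_mul_cancel]
        exact hW
      exact hc.preimage_mem_nhds h1)
  have hch : ∀ y : G, ∃ Ky : Set X, IsCompact Ky ∧ ∀ i, F.c y i ∈ Ky := fun y =>
    (hB (F.c y)).1 ⟨y, rfl⟩
  choose Ky hKy hKyi using hch
  set D : Set X := ⋃ y ∈ t, Ky y * K with hD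
  have hDc : IsCompact D := t.isCompact_biUnion fun y _ => (hKy y).mul hK
  have hmem : ∀ y ∈ C, ∀ i, F.c y i ∈ D := by
    intro y hy i
    obtain ⟨y', hy', hyy⟩ := mem_iUnion₂.1 (htc hy)
    refine mem_iUnion₂.2 ⟨y', hy', F.c y' i, hKyi y' i, F.c (y'⁻¹ * y) i, hyy i, ?_⟩
    change F.c y' i * F.c (y'⁻¹ * y) i = F.c y i
    rw [← Pi.mul_apply, ← map_mul, mul_inv_cancel_left]
  have hN := nhd_mk hDc hV
  refine ⟨_, hR _ hN, fun i ψ hψ => ?_⟩
  rw [← hx i ψ]
  exact (hCV (F.pb i ψ) (fun g hg => by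
    rw [F.pb_apply]
    exact hψ _ (hmem g hg i))).le

end Pool.Agent.Q160.RX
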